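import Mathlib

set_option autoImplicit false

namespace Pool.Agent.Results.MP_6251d3_co.Cubic
open Finset Real EuclideanGeometry

abbrev E : Type := EuclideanSpace ℝ (Fin 6)

open Classical in
/-- Ordered triples of distinct points of `S` with angle `α` at the middle point. -/
noncomputable def count (S : Finset E) (α : ℝ) : ℕ :=
  ((S ×ˢ S ×ˢ S).filter fun t =>
    t.1 ≠ t.2.1 ∧ t.1 ≠ t.2.2 ∧ t.2.1 ≠ t.2.2 ∧ angle t.1 t.2.1 t.2.2 = α).card

/-- The maximum of the count over `n`-point sets. -/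
noncomputable def B (n : ℕ) (α : ℝ) : ℕ := sSup {k | ∃ S : Finset E, S.card = n ∧ count S α = k}

theorem count_le (S : Finset E) (α : ℝ) : count S α ≤ S.card ^ 3 := by
  classical
  refine (card_filter_le _ _).trans (le_of_eq ?_)
  simp only [card_product]; ring

theorem level (c e s : ℝ) (hc : c < 0) (hc' : -1 < c) (he : e = (1 + c) / 4) (hs : s ^ 2 ≤ e) :
    ∃ t : ℝ, s ^ 2 - 1 + t ^ 2 = c * (√(e + (1 - s) ^ 2 + t ^ 2) * √(e + (1 + s) ^ 2 + t ^ 2)) := by
  have hf : Continuous fun t : ℝ =>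
      s ^ 2 - 1 + t ^ 2 - c * (√(e + (1 - s) ^ 2 + t ^ 2) * √(e + (1 + s) ^ 2 + t ^ 2)) := by
    fun_prop
  have he0 : 0 < e := by linarith
  obtain ⟨t, -, ht⟩ := intermediate_value_Icc (zero_le_one' ℝ) hf.continuousOn
    (show (0 : ℝ) ∈ Set.Icc _ _ from ⟨by
      have h1 := sq_sqrt (show 0 ≤ e + (1 - s) ^ 2 + 0 ^ 2 by positivity)
      have h2 := sq_sqrt (show 0 ≤ e + (1 + s) ^ 2 + 0 ^ 2 by positivity)
      generalize √(e + (1 - s) ^ 2 + 0 ^ 2) = a at *
      generalize √(e + (1 + s) ^ 2 + 0 ^ 2) = b at *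
      have h3 : a * b ≤ e + 1 + s ^ 2 := by nlinarith [sq_nonneg (a - b)]
      have h4 := mul_le_mul_of_nonneg_left h3 (neg_pos.2 hc).le
      nlinarith [sq_nonneg s], by
      have := mul_nonneg (neg_pos.2 hc).le (mul_nonneg
        (sqrt_nonneg (e + (1 - s) ^ 2 + 1 ^ 2)) (sqrt_nonneg (e + (1 + s) ^ 2 + 1 ^ 2)))
      nlinarith [sq_nonneg s]⟩)
  exact ⟨t, sub_eq_zero.1 ht⟩

theorem result (α : ℝ) (h1 : π / 2 < α) (h2 : α < π) (n : ℕ) :
    (n / 3) ^ 3 ≤ B n α ∧ B n α ≤ n ^ 3 := by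
  classical
  have hb : ∀ k ∈ {k | ∃ S : Finset E, S.card = n ∧ count S α = k}, k ≤ n ^ 3 := by
    rintro _ ⟨S, rfl, rfl⟩; exact count_le S α
  refine ⟨?_, csSup_le' hb⟩
  have hc : cos α < 0 := cos_neg_of_pi_div_two_lt_of_lt h1 (by linarith [pi_pos])
  have hc' : -1 < cos α := by
    rw [← cos_pi]; exact cos_lt_cos_of_nonneg_of_le_pi (by linarith [pi_pos]) le_rfl h2
  set e := (1 + cos α) / 4 with he
  have he0 : 0 < e := by linarith
  let a : ℕ → ℝ := fun i => √e / (i + 1)
  have ha0 : ∀ i, 0 < a i := fun i => by positivity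
  have ha : ∀ i, a i ^ 2 ≤ e := fun i => by
    have : a i ≤ √e := div_le_self (sqrt_nonneg _) (by linarith [Nat.cast_nonneg (α := ℝ) i])
    nlinarith [sq_sqrt he0.le, ha0 i]
  have hai : Function.Injective a := fun i j h => by
    have h3 : 0 < √e := by positivity
    simp only [a] at h
    field_simp at h
    exact_mod_cast (by linarith : (i : ℝ) = j)
  choose t ht using fun i => level (cos α) e (a i) hc hc' he (ha i)
  let X : ℕ → E := fun i => !₂[a i, √(e - a i ^ 2), 0, 0, 1, 0]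
  let Z : ℕ → E := fun i => !₂[0, 0, a i, √(e - a i ^ 2), -1, 0]
  let Y : ℕ → E := fun i => !₂[0, 0, 0, 0, a i, t i]
  have hX : Function.Injective X := fun i j h => hai (by simpa [X] using congrArg (· 0) h)
  have hZ : Function.Injective Z := fun i j h => hai (by simpa [Z] using congrArg (· 2) h)
  have hY : Function.Injective Y := fun i j h => hai (by simpa [Y] using congrArg (· 4) h)
  have hXY : ∀ i j, X i ≠ Y j := fun i j h => (ha0 i).ne' (by simpa [X, Y] using congrArg (· 0) h)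
  have hXZ : ∀ i j, X i ≠ Z j := fun i j h => (ha0 i).ne' (by simpa [X, Z] using congrArg (· 0) h)
  have hYZ : ∀ i j, Y i ≠ Z j := fun i j h => (ha0 j).ne (by simpa [Y, Z] using congrArg (· 2) h)
  have hang : ∀ i j k, angle (X i) (Y j) (Z k) = α := by
    intro i j k
    have n1 : ‖X i -ᵥ Y j‖ = √(e + (1 - a j) ^ 2 + t j ^ 2) := by
      rw [EuclideanSpace.norm_eq]
      congr 1
      simp [X, Y, Fin.sum_univ_succ, sq_sqrt (sub_nonneg.2 (ha i))]
      ring
    have n2 : ‖Z k -ᵥ Y j‖ = √(e + (1 + a j) ^ 2 + t j ^ 2) := by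
      rw [EuclideanSpace.norm_eq]
      congr 1
      simp [Z, Y, Fin.sum_univ_succ, sq_sqrt (sub_nonneg.2 (ha k))]
      ring
    have n3 : inner ℝ (X i -ᵥ Y j) (Z k -ᵥ Y j) = a j ^ 2 - 1 + t j ^ 2 := by
      simp [X, Y, Z, PiLp.inner_apply, Fin.sum_univ_succ]
      ring
    rw [angle, InnerProductGeometry.angle, n1, n2, n3, ht, mul_div_cancel_right₀ _ (by positivity),
      arccos_cos (by linarith [pi_pos]) h2.le]
  set m := n / 3 with hm
  let S : Finset E := (range m).image X ∪ ((range (n - 2 * m)).image Y ∪ (range m).image Z)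
  have hS : S.card = n := by
    rw [card_union_of_disjoint, card_union_of_disjoint, card_image_of_injective _ hX,
      card_image_of_injective _ hY, card_image_of_injective _ hZ]
    · simp only [card_range]; omega
    · simp only [disjoint_left, mem_image]
      rintro _ ⟨i, -, rfl⟩ ⟨j, -, h⟩
      exact hYZ i j h.symm
    · simp only [disjoint_left, mem_image, mem_union]
      rintro _ ⟨i, -, rfl⟩ (⟨j, -, h⟩ | ⟨j, -, h⟩)
      · exact hXY i j h.symm
      · exact hXZ i j h.symm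
  refine le_trans ?_ (le_csSup ⟨_, hb⟩ ⟨S, hS, rfl⟩)
  have : m ^ 3 = (range m ×ˢ range m ×ˢ range m).card := by simp only [card_product, card_range]; ring
  rw [this]
  refine card_le_card_of_injOn (fun p => (X p.1, Y p.2.1, Z p.2.2)) ?_ ?_
  · rintro ⟨i, j, k⟩ hp
    simp only [coe_product, Set.mem_prod, mem_coe, mem_range] at hp
    simp only [coe_filter, mem_product, Set.mem_ofPred_eq]
    exact ⟨⟨mem_union_left _ (mem_image_of_mem _ (mem_range.2 hp.1)),
      mem_union_right _ (mem_union_left _ (mem_image_of_mem _ (mem_range.2 (by omega)))),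
      mem_union_right _ (mem_union_right _ (mem_image_of_mem _ (mem_range.2 hp.2.2)))⟩,
      hXY _ _, hXZ _ _, hYZ _ _, hang _ _ _⟩
  · rintro ⟨i, j, k⟩ - ⟨i', j', k'⟩ - h
    simp only [Prod.mk.injEq] at h ⊢
    exact ⟨hX h.1, hY h.2.1, hZ h.2.2⟩

end Pool.Agent.Results.MP_6251d3_co.Cubic
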